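import Pool.Agent.Helper50.KP.Goals

/-!
# Packet KP-CNS
-/

set_option autoImplicit false

namespace Pool.Agent.Helper89.KP

open Pool.Agent.Helper50.KP

lemma Sl_iff (n : ℕ) (l : List ℕ) (z : ℕ) :
    Sl n l z = true ↔ (z < 2 * n ∧ n - 1 - z / 2 ∈ l) := by
  unfold Sl
  exact decide_eq_true_iff

lemma cn_two (n : ℕ) (l : List ℕ) (j : ℕ) (hj : j ≤ n) :
    cn (Sl n l) (2 * j) = 2 * Nat.count (fun i => n - 1 - i ∈ l) j := by
  induction j with
  | zero => simp [cn]
  | succ j ih =>
    have h1 := ih (by omega)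
    have e : 2 * (j + 1) = 2 * j + 1 + 1 := by ring
    unfold cn at h1 ⊢
    rw [e, Nat.count_succ, Nat.count_succ, Nat.count_succ, h1]
    have a1 : (Sl n l (2 * j) = true) ↔ (n - 1 - j ∈ l) := by
      rw [Sl_iff]
      have : 2 * j / 2 = j := by omega
      rw [this]
      constructor
      · exact fun h => h.2
      · exact fun h => ⟨by omega, h⟩
    have a2 : (Sl n l (2 * j + 1) = true) ↔ (n - 1 - j ∈ l) := by
      rw [Sl_iff]
      have : (2 * j + 1) / 2 = j := by omega
      rw [this]
      constructor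
      · exact fun h => h.2
      · exact fun h => ⟨by omega, h⟩
    by_cases h : n - 1 - j ∈ l
    · rw [if_pos (a1.2 h), if_pos (a2.2 h), if_pos h]
      ring
    · rw [if_neg (fun h' => h (a1.1 h')), if_neg (fun h' => h (a2.1 h')), if_neg h]
      ring

theorem gCNS : Pool.Agent.Helper50.KP.CNS := by
  intro n v As Bs hsub
  have hpw : (As ++ v :: Bs).Pairwise (· < ·) := List.pairwise_lt_range.sublist hsub
  have hlt : ∀ u ∈ As ++ v :: Bs, u < n := fun u hu => List.mem_range.1 (hsub.subset hu)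
  rw [List.pairwise_append] at hpw
  obtain ⟨-, hvB, hAB⟩ := hpw
  rw [List.pairwise_cons] at hvB
  obtain ⟨hvB, hBpw⟩ := hvB
  have hAv : ∀ a ∈ As, a < v := fun a ha => hAB a ha v List.mem_cons_self
  have hv : v < n := hlt v (List.mem_append_right _ List.mem_cons_self)
  have hnd : Bs.Nodup := hBpw.imp (fun h => Nat.ne_of_lt h)
  have hBn : ∀ u ∈ Bs, u < n := fun u hu =>
    hlt u (List.mem_append_right _ (List.mem_cons_of_mem _ hu))
  have hmem : ∀ u, u ∈ As ++ v :: Bs ↔ u ∈ As ∨ u = v ∨ u ∈ Bs := by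
    intro u
    rw [List.mem_append, List.mem_cons]
  -- (1)
  have h1 : cn (Sl n (As ++ v :: Bs)) (2 * (n - 1 - v)) = 2 * Bs.length := by
    rw [cn_two n _ _ (by omega), Nat.count_eq_card_filter_range, ← List.toFinset_card_of_nodup hnd]
    congr 1
    refine Finset.card_nbij' (fun i => n - 1 - i) (fun u => n - 1 - u) ?_ ?_ ?_ ?_
    · intro i hi
      rw [Finset.mem_coe, Finset.mem_filter, Finset.mem_range, hmem] at hi
      rw [Finset.mem_coe, List.mem_toFinset]
      rcases hi with ⟨hi, h | h | h⟩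
      · have := hAv _ h
        omega
      · omega
      · exact h
    · intro u hu
      rw [Finset.mem_coe, List.mem_toFinset] at hu
      have h2 := hvB u hu
      have h3 := hBn u hu
      show n - 1 - u ∈ _
      rw [Finset.mem_coe, Finset.mem_filter, Finset.mem_range, hmem]
      refine ⟨by omega, Or.inr (Or.inr ?_)⟩
      have : n - 1 - (n - 1 - u) = u := by omega
      rw [this]
      exact hu
    · intro i hi
      rw [Finset.mem_coe, Finset.mem_filter, Finset.mem_range] at hi
      show n - 1 - (n - 1 - i) = i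
      omega
    · intro u hu
      rw [Finset.mem_coe, List.mem_toFinset] at hu
      have h3 := hBn u hu
      show n - 1 - (n - 1 - u) = u
      omega
  refine ⟨h1, ?_, ?_, ?_, ?_⟩
  · rw [← h1]
    unfold cn
    rw [Nat.count_succ]
    have h2 : ¬ ((Sl n (As ++ v :: Bs) (2 * (n - 1 - v)) &&
        decide (2 * (n - 1 - v) ≠ 2 * (n - 1 - v))) = true) := by
      simp
    rw [if_neg h2, Nat.add_zero, Nat.count_eq_card_filter_range, Nat.count_eq_card_filter_range]
    congr 1
    refine Finset.filter_congr fun z hz => ?_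
    rw [Finset.mem_range] at hz
    have h3 : decide (z ≠ 2 * (n - 1 - v)) = true := by
      rw [decide_eq_true_iff]
      omega
    show (Sl n (As ++ v :: Bs) z && decide (z ≠ 2 * (n - 1 - v))) = true ↔ _
    rw [h3, Bool.and_true]
  · intro y
    rw [Bool.eq_iff_iff, Bool.and_eq_true, Bool.and_eq_true, Sl_iff, Sl_iff, decide_eq_true_iff,
      decide_eq_true_iff, hmem, List.mem_append]
    constructor
    · rintro ⟨⟨⟨hy, h | h | h⟩, h2⟩, h3⟩
      · exact ⟨hy, Or.inl h⟩
      · exfalso
        omega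
      · exact ⟨hy, Or.inr h⟩
    · rintro ⟨hy, h | h⟩
      · have := hAv _ h
        exact ⟨⟨⟨hy, Or.inl h⟩, by omega⟩, by omega⟩
      · have := hvB _ h
        exact ⟨⟨⟨hy, Or.inr (Or.inr h)⟩, by omega⟩, by omega⟩
  · rw [Sl_iff, hmem]
    exact ⟨by omega, Or.inr (Or.inl (by omega))⟩
  · rw [Sl_iff, hmem]
    exact ⟨by omega, Or.inr (Or.inl (by omega))⟩

end Pool.Agent.Helper89.KP
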